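import Pool.Agent.W759.TR.Defs

namespace Pool.Agent.W723.TR

open MeasureTheory ProbabilityTheory Set Filter
open Pool.Agent.W759.TR
open Pool.Agent.W759.FD (house)

variable {V : Type}

theorem isU_iff (G : SimpleGraph V) (φ : G ≃g G) (U : V → Lab) (v : V) (c : Lab) (u : V) :
    IsU G (fun x => U (φ x)) v c u ↔ IsU G U (φ v) c (φ u) := by
  unfold IsU
  constructor
  · rintro ⟨h1, h2, h3⟩
    refine ⟨φ.map_adj_iff.2 h1, h2, fun u' ha hc => ?_⟩
    have := h3 (φ.symm u') (by rw [← φ.map_adj_iff]; simpa using ha) (by simpa using hc)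
    rw [← this]; simp
  · rintro ⟨h1, h2, h3⟩
    refine ⟨φ.map_adj_iff.1 h1, h2, fun u' ha hc => ?_⟩
    exact φ.injective (h3 (φ u') (φ.map_adj_iff.2 ha) hc)

theorem link_iff (G : SimpleGraph V) (φ : G ≃g G) (U : V → Lab) (w : List Lab) (j : ℕ)
    (u v : V) : Link G (fun x => U (φ x)) w j u v ↔ Link G U w j (φ u) (φ v) := by
  unfold Link; rw [isU_iff, isU_iff]

theorem link_unique (G : SimpleGraph V) (U : V → Lab) (w : List Lab) (j : ℕ) {u u' v : V}
    (h : Link G U w j u v) (h' : Link G U w j u' v) : u = u' :=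
  h'.2.2.2 u h.2.1 h.2.2.1

theorem first_of_link (G : SimpleGraph V) (U : V → Lab) (w : List Lab) (j : ℕ) {u v : V}
    (h : Link G U w j u v) : first G univ U w (j + 1) v = first G univ U w j u := by
  have hex : ∃ u, u ∈ (univ : Set V) ∧ v ∈ (univ : Set V) ∧ Link G U w j u v :=
    ⟨u, trivial, trivial, h⟩
  rw [first, dif_pos hex, link_unique G U w j hex.choose_spec.2.2 h]

theorem first_of_not (G : SimpleGraph V) (U : V → Lab) (w : List Lab) (j : ℕ) {v : V}
    (h : ¬ ∃ u, Link G U w j u v) : first G univ U w (j + 1) v = (v, j + 1) := by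
  have hex : ¬ ∃ u, u ∈ (univ : Set V) ∧ v ∈ (univ : Set V) ∧ Link G U w j u v := by
    rintro ⟨u, -, -, hu⟩; exact h ⟨u, hu⟩
  rw [first, dif_neg hex]

theorem first_map (G : SimpleGraph V) (φ : G ≃g G) (U : V → Lab) (w : List Lab) (j : ℕ) :
    ∀ v : V, first G univ U w j (φ v) = (φ (first G univ (fun x => U (φ x)) w j v).1,
      (first G univ (fun x => U (φ x)) w j v).2) := by
  induction j with
  | zero => intro v; simp [first]
  | succ j ih =>
    intro v
    by_cases h : ∃ u, Link G (fun x => U (φ x)) w j u v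
    · obtain ⟨u, hu⟩ := h
      rw [first_of_link G _ w j hu, first_of_link G U w j ((link_iff G φ U w j u v).1 hu), ih u]
    · have h' : ¬ ∃ u, Link G U w j u (φ v) := by
        rintro ⟨u, hu⟩
        refine h ⟨φ.symm u, ?_⟩
        rw [link_iff]
        simpa using hu
      rw [first_of_not G _ w j h, first_of_not G U w j h']

theorem t3 : T3 := by
  intro h0 h2 V _ G φ
  haveI : ∀ k : Key × (V × ℕ), IsProbabilityMeasure (house (k.1.1.1 + 1)) :=
    fun k => h0.1 _ (Nat.succ_pos _)
  have hX := h2 V G univ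
  have hm1 : Measurable (fun (U : V → Lab) (v : V) => U (φ v)) := by fun_prop
  have hm2 : Measurable (fun (H : Key × (V × ℕ) → ℕ → Bool) (k : Key × (V × ℕ)) =>
      H (k.1, (φ k.2.1, k.2.2))) := by fun_prop
  have hPU : (PU V).map (fun (U : V → Lab) (v : V) => U (φ v)) = PU V :=
    Measure.map_infinitePi_infinitePi_of_inj (P := fun _ : V => lab) (f := fun v => φ v)
      φ.injective
  have hinj : Function.Injective (fun k : Key × (V × ℕ) => ((k.1, (φ k.2.1, k.2.2)) :
      Key × (V × ℕ))) := by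
    rintro ⟨a, b, c⟩ ⟨a', b', c'⟩ h
    simp only [Prod.mk.injEq, EmbeddingLike.apply_eq_iff_eq] at h
    obtain ⟨rfl, rfl, rfl⟩ := h
    rfl
  have hPH : (PH V).map (fun (H : Key × (V × ℕ) → ℕ → Bool) (k : Key × (V × ℕ)) =>
      H (k.1, (φ k.2.1, k.2.2))) = PH V :=
    Measure.map_infinitePi_infinitePi_of_inj
      (P := fun k : Key × (V × ℕ) => house (k.1.1.1 + 1)) hinj
  haveI : IsProbabilityMeasure (PU V) := by unfold PU; infer_instance
  haveI : IsProbabilityMeasure (PH V) := by unfold PH; infer_instance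
  have hPE : (PE V).map (Prod.map (fun (U : V → Lab) (v : V) => U (φ v))
      (fun (H : Key × (V × ℕ) → ℕ → Bool) (k : Key × (V × ℕ)) =>
        H (k.1, (φ k.2.1, k.2.2)))) = PE V := by
    unfold PE
    rw [← Measure.map_prod_map _ _ hm1 hm2, hPU, hPH]
  have hms : Measurable (fun x : V → S1 => fun v => x (φ v)) := by fun_prop
  rw [muT, Measure.map_map hms hX]
  conv_rhs => rw [← hPE, Measure.map_map hX (hm1.prodMap hm2)]
  congr 1
  funext ω v
  refine Prod.ext rfl ?_
  funext q
  have := first_map G φ ω.1 q.1.2 q.2 v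
  simp only [Function.comp, XC, Prod.map_fst, Prod.map_snd]
  rw [this]

end Pool.Agent.W723.TR
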